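import Mathlib
import Pool.Agent.Helper951.FrF

set_option autoImplicit false

namespace Pool.Agent.Results.MP_f3e379_co.NonDivisible

open Finset Pool.Agent.Helper951.Defs Pool.Agent.Helper951.Spec Pool.Agent.Helper951.FrB
open Pool.Agent.Helper951.Core Pool.Agent.Helper951.FrC Pool.Agent.Helper951.FrD
open Pool.Agent.Helper951.FrA Pool.Agent.Helper951.FrE Pool.Agent.Helper951.FrF

/-- A friendship-free graph whose spectral radius is at least that of `S1` is `S1`. -/
lemma main_iso (k l m n : ℕ) (hk : 3 ≤ k) (hl1 : 1 ≤ l) (hl : l < k)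
    (hm : (100 * k ^ 4) ^ 2 + k ^ 2 + k ≤ m)
    (hmod : m + k * (k + 1) / 2 ≡ l [MOD k])
    (hn : (n : ℚ) = ((m : ℚ) - l) / k + (k + 3) / 2)
    {V : Type} [Fintype V] [DecidableEq V] (G : SimpleGraph V) [DecidableRel G.Adj]
    (hG : G.edgeFinset.card = m) (hiso : ∀ v, ∃ w, G.Adj v w)
    (hfree : ¬ (friendship k).IsContained G) (hge : specRad (S1 n k l) ≤ specRad G) :
    Nonempty (G ≃g S1 n k l) := by
  obtain ⟨K, hKdef⟩ : ∃ K : ℝ, K = k := ⟨_, rfl⟩
  have hK : (3 : ℝ) ≤ K := by rw [hKdef]; exact_mod_cast hk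
  have hne : Nonempty V := by
    by_contra hcon
    rw [not_nonempty_iff] at hcon
    have h1 : G.edgeFinset.card = 0 := by
      rw [Finset.card_eq_zero, Finset.eq_empty_iff_forall_notMem]
      intro e
      induction e with
      | _ a b => exact (IsEmpty.false a).elim
    have h2 : 0 < k ^ 2 := by positivity
    omega
  obtain ⟨x, u, h⟩ := exists_sit G
  set lam := specRad G with hlamdef
  have hlR : (l : ℝ) ≤ K - 1 := by
    have : (l : ℝ) + 1 ≤ K := by rw [hKdef]; exact_mod_cast hl
    linarith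
  have hl1R : (1 : ℝ) ≤ l := by exact_mod_cast hl1
  obtain ⟨c0, hc0def⟩ : ∃ c0 : ℝ, c0 = (l : ℝ) * (K - l) / K := ⟨_, rfl⟩
  have hc0K : c0 * K = l * (K - l) := by rw [hc0def]; field_simp
  have hc0 : 0 ≤ c0 := by
    rw [hc0def]
    apply div_nonneg (mul_nonneg _ _) _ <;> linarith
  have hc1 : c0 ≤ K / 4 := by
    rw [hc0def, div_le_iff₀ (by linarith)]
    nlinarith [sq_nonneg (K - 2 * l)]
  have hmR : (100 * K ^ 4) ^ 2 + K ^ 2 + K ≤ (m : ℝ) := by
    rw [hKdef]; exact_mod_cast hm
  have hnR : (n : ℝ) = ((m : ℝ) - l) / K + (K + 3) / 2 := by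
    have := congrArg (fun q : ℚ => (q : ℝ)) hn
    push_cast at this
    rw [hKdef]
    exact this
  have hnk : K + 1 ≤ (n : ℝ) := by
    have h1 : K ≤ ((m : ℝ) - l) / K := by
      rw [le_div_iff₀ (by linarith)]
      have : 0 ≤ (100 * K ^ 4) ^ 2 := by positivity
      nlinarith
    linarith
  have ht : ((n - k - 1 : ℕ) : ℝ) = n - K - 1 := by
    have h1 : k + 1 ≤ n := by
      have : ((k + 1 : ℕ) : ℝ) ≤ n := by push_cast; rw [← hKdef]; exact hnk
      exact_mod_cast this
    rw [Nat.sub_sub, Nat.cast_sub h1]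
    push_cast
    rw [hKdef]
    ring
  have hkt : K * ((n - k - 1 : ℕ) : ℝ) = m - l - K * (K - 1) / 2 := by
    rw [ht, hnR]
    field_simp
    ring
  obtain ⟨hθ1, hθ2⟩ := S1_low n k l hl1 hl
  rw [← hKdef, hkt] at hθ2
  rw [← hKdef] at hθ1
  set θ := specRad (S1 n k l) with hθ
  have hmEE : EE G univ univ / 2 = m := by rw [EE_univ_eq, hG]; ring
  have hlow : EE G univ univ / 2 - K * (K - 1) / 2 - c0 ≤ lam ^ 2 - (K - 1) * lam := by
    have h1 : 0 ≤ (lam - θ) * (lam + θ - (K - 1)) :=
      mul_nonneg (by linarith) (by linarith)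
    have h2 : (l : ℝ) ^ 2 / K = l - c0 := by
      rw [hc0def]; field_simp; ring
    rw [hmEE]
    rw [h2] at hθ2
    linarith
  have hlam : 100 * K ^ 4 ≤ lam := by
    rw [hmEE] at hlow
    have h1 : 0 ≤ (K - 1) * lam := mul_nonneg (by linarith) (by linarith)
    by_contra hcon
    push Not at hcon
    have h2 : lam ^ 2 < (100 * K ^ 4) ^ 2 := pow_lt_pow_left₀ hcon (by linarith) two_ne_zero
    nlinarith
  have hlampos : 0 < lam := by
    have : 0 < K ^ 4 := by positivity
    linarith
  have hl1' : 100 * K ≤ lam := by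
    have h1 : (1 : ℝ) ≤ K ^ 3 := one_le_pow₀ (by linarith)
    have h2 : K * 1 ≤ K * K ^ 3 := mul_le_mul_of_nonneg_left h1 (by linarith)
    have h3 : K * K ^ 3 = K ^ 4 := by ring
    linarith
  -- the big vertices
  have hcard := big_card_eq h k (by omega) hfree c0 (by rw [← hKdef]; exact hc1)
    (by rw [← hKdef]; exact hlam) (by rw [← hKdef]; exact hlow)
  have hind := rst_indep (G := G) (u := u) k hcard hfree
  set S := big G k u with hSdef
  have hS : ∀ s ∈ S, G.Adj u s := fun s hs => ((mem_big k s).1 hs).1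
  have hcardK : (S.card : ℝ) = K - 1 := by
    have : (S.card : ℝ) + 1 = K := by rw [hKdef]; exact_mod_cast hcard
    linarith
  set T := rst G u S with hT
  set W := far G u with hW
  have hdg : ∀ t ∈ T, dg G T t = 0 := fun t ht =>
    Finset.sum_eq_zero (fun t' ht' => ad_not G _ _ (hind t ht t' ht'))
  have hTT : EE G T T = 0 := Finset.sum_eq_zero hdg
  have hXT : XX G x T T = 0 := by
    rw [XX_self]
    exact Finset.sum_eq_zero (fun t ht => by rw [hdg t ht, zero_mul])
  have hR := refined h S hS K c0 hcardK hlow (by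
    intro s hs
    have h1 := dg_cn (G := G) (u := u) S hS s
    have h2 : 2 * K ≤ ((cn G u s).card : ℝ) := by
      rw [hKdef]; exact_mod_cast ((mem_big k s).1 hs).2
    have h3 := dg_nonneg (G := G) S s
    linarith)
  rw [← hT, ← hW] at hR
  have hR' : ((K - 1) * (K - 2) - EE G S S) / 2 + q1 G x S T + q2 G x S T / 2
      + (q2 G x W S + q2 G x W T) + EE G W W / 2 ≤ K / 4 := by
    rw [hTT, hXT] at hR
    linarith
  have hnh := no_heavy h k hk S hS hcard (fun s I h1 h2 h3 => hfree (friend_greedy G k s I h1 h2 h3))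
    (by rw [← hKdef]; exact hlam) (by rw [← hKdef]; exact hR')
  rw [← hW] at hnh
  -- everything else is light
  have hd1 : 0 ≤ (K - 1) * (K - 2) - EE G S S := by
    have h1 : EE G S S ≤ ∑ s ∈ S, (K - 2) := by
      rw [EE_eq]
      apply Finset.sum_le_sum
      intro s hs
      have := dg_self_le (G := G) S s hs
      linarith
    rw [Finset.sum_const, nsmul_eq_mul, hcardK] at h1
    linarith
  have hq1 := q1_nonneg h S T
  have hq2 := q2_nonneg h S T
  have hWW := EE_nonneg (G := G) W W
  have hWS := EE_nonneg (G := G) W S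
  have hWT := EE_nonneg (G := G) W T
  have hq3 : ∀ B : Finset V, EE G W B / 2 ≤ q2 G x W B := by
    intro B
    rw [q2_dg, EE_eq, Finset.sum_div]
    apply Finset.sum_le_sum
    intro w hw
    have h1 := hnh w hw
    have h2 := dg_nonneg (G := G) B w
    have h3 : dg G B w * (1 / 2) ≤ dg G B w * (1 - x w) :=
      mul_le_mul_of_nonneg_left (by linarith) h2
    linarith
  have h3a := hq3 S
  have h3b := hq3 T
  have hWST : EE G W S + EE G W T ≤ K / 2 := by linarith
  have hWW' : EE G W W ≤ K / 2 := by linarith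
  have hrow : ∀ v, lam * x v ≤ ad G v u + dg G S v + dg G T v + dg G W v := by
    intro v
    rw [← h.ev v, split S hS (fun w => ad G v w * x w), h.xu, mul_one]
    have hle : ∀ (A : Finset V), ∑ w ∈ A, ad G v w * x w ≤ dg G A v := by
      intro A
      apply Finset.sum_le_sum
      intro w _
      exact mul_le_of_le_one_right (ad_nonneg G v w) (h.x1 w)
    have h1 := hle S
    have h2 := hle T
    have h3 := hle W
    linarith
  have hlight : ∀ r, r ≠ u → r ∉ S → x r ≤ 1 / 4 := by
    intro r hru hrS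
    have h1 := hrow r
    have h9 : lam * x r ≤ lam * (1 / 4) := by
      by_cases hur : G.Adj u r
      · have hrT : r ∈ T := (mem_rst _ _).2 ⟨hur, hrS⟩
        have h2 := hdg r hrT
        have h3 := dg_le_EE (G := G) T W r hrT
        rw [EE_comm T W] at h3
        have h4 : ad G r u ≤ 1 := ad_le_one G _ _
        have h5 : dg G S r ≤ K - 1 := by
          rw [← hcardK]
          unfold dg
          calc ∑ w ∈ S, ad G r w ≤ ∑ w ∈ S, (1:ℝ) :=
                Finset.sum_le_sum (fun _ _ => ad_le_one G _ _)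
            _ = S.card := by simp
        linarith
      · have hrW : r ∈ W := (mem_far _).2 ⟨hru, hur⟩
        have h2 := dg_le_EE (G := G) W S r hrW
        have h3 := dg_le_EE (G := G) W T r hrW
        have h4 := dg_le_EE (G := G) W W r hrW
        have h5 : ad G r u = 0 := ad_not G _ _ (fun h' => hur h'.symm)
        linarith
    exact le_of_mul_le_mul_left h9 hlampos
  obtain ⟨hcl, hZ⟩ := core_light h S hS K c0 (by linarith) hcardK hlam hc0 hc1 hlow
    (by rw [← hT, ← hW]; exact hR) hlight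
  rw [hc0K] at hZ
  have huS : u ∉ S := fun hu => (hS u hu).ne rfl
  apply finish G k l m n hl1 hl hG hiso (insert u S)
  · rw [Finset.card_insert_of_notMem huS, hcard]
  · intro a ha b hb hab
    rw [Finset.mem_insert] at ha hb
    rcases ha with rfl | ha <;> rcases hb with rfl | hb
    · exact absurd rfl hab
    · exact hS b hb
    · exact (hS a ha).symm
    · exact hcl a ha b hb hab
  · exact hmod
  · exact hn
  · rw [← hKdef]; exact hZ

/-- For every `k ≥ 3` there is `m₀` such that for all `m ≥ m₀` with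
`m + k(k+1)/2 ≡ l (mod k)`, `1 ≤ l ≤ k-1`, and `n = (m-l)/k + (k+3)/2`, every `F_{k,3}`-free
graph with `m` edges and no isolated vertices has spectral radius at most that of
`S^{1,l}_{n,k}`, with equality exactly for graphs isomorphic to `S^{1,l}_{n,k}`. -/
theorem result : ∀ k : ℕ, 3 ≤ k → ∃ m₀ : ℕ, ∀ m : ℕ, m₀ ≤ m → ∀ l n : ℕ, 1 ≤ l → l ≤ k - 1 →
    m + k * (k + 1) / 2 ≡ l [MOD k] →
    (n : ℚ) = ((m : ℚ) - l) / k + (k + 3) / 2 →
    ∀ (V : Type) (_ : Fintype V) (G : SimpleGraph V),
      G.edgeSet.ncard = m → (∀ v, ∃ w, G.Adj v w) → ¬ (friendship k).IsContained G →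
      specRad G ≤ specRad (S1 n k l) ∧
      (specRad G = specRad (S1 n k l) ↔ Nonempty (G ≃g S1 n k l)) := by
  classical
  intro k hk
  refine ⟨(100 * k ^ 4) ^ 2 + k ^ 2 + k, ?_⟩
  intro m hm l n hl1 hl hmod hn V _ G hG hiso hfree
  have hG' : G.edgeFinset.card = m := by
    rw [← hG, Set.ncard_eq_toFinset_card']
    rfl
  have key : specRad (S1 n k l) ≤ specRad G → Nonempty (G ≃g S1 n k l) :=
    main_iso k l m n hk hl1 (by omega) hm hmod hn G hG' hiso hfree
  have hVne : Nonempty V := by
    by_contra hcon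
    rw [not_nonempty_iff] at hcon
    have h1 : G.edgeFinset.card = 0 := by
      rw [Finset.card_eq_zero, Finset.eq_empty_iff_forall_notMem]
      intro e
      induction e with
      | _ a b => exact (IsEmpty.false a).elim
    have h2 : 0 < k ^ 2 := by positivity
    omega
  have hSne : Nonempty (Fin l ⊕ ((Fin (k - l) ⊕ Fin (n - k - 1)) ⊕ Fin 1)) :=
    ⟨Sum.inr (Sum.inr 0)⟩
  have hiso_eq : Nonempty (G ≃g S1 n k l) → specRad G = specRad (S1 n k l) := by
    rintro ⟨e⟩
    exact specRad_iso G (S1 n k l) e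
  refine ⟨?_, ?_, hiso_eq⟩
  · rcases le_total (specRad G) (specRad (S1 n k l)) with h | h
    · exact h
    · exact (hiso_eq (key h)).le
  · intro h
    exact key h.ge

end Pool.Agent.Results.MP_f3e379_co.NonDivisible
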